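import Pool.Agent.Helper63.P705.NR.Goals

/-!
# MP_705522_gt, `θ ∈ [0.49, 1/2)`: packet NR-GO4
-/

namespace Pool.Agent.Helper5.NR

open MeasureTheory Set Filter Topology
open Pool.Agent.Helper53.PT Pool.Agent.Helper63.P705.NR

theorem abs_sin_le' {x : ℝ} (hx : 0 ≤ x) : |Real.sin x| ≤ x := by
  rw [abs_le]
  refine ⟨?_, Real.sin_le hx⟩
  by_cases h : x ≤ 1
  · have h2 : 0 ≤ Real.sin x :=
      Real.sin_nonneg_of_nonneg_of_le_pi hx (le_trans h (by linarith [Real.pi_gt_three]))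
    linarith
  · have h2 := Real.neg_one_le_sin x
    linarith

/-- a lower bound of the mean of `f0` -/
theorem mean_low {θ : ℝ} (h0 : 0 < θ) (h1 : θ < 1 / 2)
    (hp : ∀ s, 0 ≤ s → s ≤ 6.76 → 0 < f0 θ s) {u a : ℝ} (hu : 0 < u) (hu2 : u ≤ 2.4) (ha : 0 ≤ a)
    (ha1 : a ≤ 1) : a - a ^ 3 * u ^ 2 / 6 ≤ ∫ τ in (0 : ℝ)..1, f0 θ ((τ * u) ^ 2) := by
  have hc : Continuous fun τ : ℝ => f0 θ ((τ * u) ^ 2) :=
    (continuous_f0 h0 h1).comp (by fun_prop)
  rw [← intervalIntegral.integral_add_adjacent_intervals (hc.intervalIntegrable 0 a)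
    (hc.intervalIntegrable a 1)]
  have h2 : 0 ≤ ∫ τ in a..1, f0 θ ((τ * u) ^ 2) := by
    refine intervalIntegral.integral_nonneg ha1 fun τ hτ => ?_
    refine (hp _ (sq_nonneg _) ?_).le
    have e1 : 0 ≤ τ * u := mul_nonneg (le_trans ha hτ.1) hu.le
    have e2 : τ * u ≤ 2.4 := by
      calc τ * u ≤ 1 * u := mul_le_mul_of_nonneg_right hτ.2 hu.le
        _ ≤ 2.4 := by linarith
    nlinarith
  have h3 : a - a ^ 3 * u ^ 2 / 6 = ∫ τ in (0 : ℝ)..a, (1 - (τ * u) ^ 2 / 2) := by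
    have hd : ∀ τ ∈ uIcc 0 a, HasDerivAt (fun τ : ℝ => τ - τ ^ 3 * u ^ 2 / 6)
        (1 - (τ * u) ^ 2 / 2) τ := by
      intro τ _
      have := ((hasDerivAt_id τ).sub ((((hasDerivAt_id τ).pow 3).mul_const (u ^ 2)).div_const 6))
      refine this.congr_deriv ?_
      simp
      ring
    rw [intervalIntegral.integral_eq_sub_of_hasDerivAt hd
      ((by fun_prop : Continuous fun τ : ℝ => 1 - (τ * u) ^ 2 / 2).intervalIntegrable 0 a)]
    simp
  have h4 : ∫ τ in (0 : ℝ)..a, (1 - (τ * u) ^ 2 / 2) ≤ ∫ τ in (0 : ℝ)..a, f0 θ ((τ * u) ^ 2) := by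
    refine intervalIntegral.integral_mono_on ha
      ((by fun_prop : Continuous fun τ : ℝ => 1 - (τ * u) ^ 2 / 2).intervalIntegrable 0 a)
      (hc.intervalIntegrable 0 a) fun τ _ => ?_
    exact (aBD h0 h1 (sq_nonneg (τ * u))).2.1
  linarith

/-- lower bound of `RR`, with the mean of `f0` -/
theorem RR_low (hD : GD) (hM : GM) (hF : GF) (hC : GC) (hN : GN) (hR : GR) {θ : ℝ}
    (h0 : 0.49 ≤ θ) (h1 : θ < 1 / 2) {u : ℝ} (hu : 0 < u) :
    1 / θ * (∫ τ in (0 : ℝ)..1, f0 θ ((τ * u) ^ 2)) - 9.4 * de θ ≤ RR θ (u ^ 2) := by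
  have hθ : 0 < θ := by linarith
  obtain ⟨-, r1, r2⟩ := hR hD hM hF θ h0 h1 u hu
  obtain ⟨n1, -, n3, -, n5, -⟩ := hN hD hM hC θ h0 h1
  rw [r2] at r1
  have hb : |∫ y in Ioi (0 : ℝ), nf θ y * Real.sin (u * y)| ≤ u * (9.4 * de θ) := by
    calc |∫ y in Ioi (0 : ℝ), nf θ y * Real.sin (u * y)|
        ≤ ∫ y in Ioi (0 : ℝ), u * (y * nf θ y) := by
          rw [← Real.norm_eq_abs]
          refine norm_integral_le_of_norm_le (n3.const_mul u) ?_
          refine ae_restrict_of_forall_mem measurableSet_Ioi fun y hy => ?_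
          have hy0 : (0 : ℝ) < y := hy
          rw [Real.norm_eq_abs, abs_mul, abs_of_nonneg (n1 y hy0)]
          have h2 : |Real.sin (u * y)| ≤ u * y := abs_sin_le' (by positivity)
          calc nf θ y * |Real.sin (u * y)| ≤ nf θ y * (u * y) :=
                mul_le_mul_of_nonneg_left h2 (n1 y hy0)
            _ = u * (y * nf θ y) := by ring
      _ = u * ∫ y in Ioi (0 : ℝ), y * nf θ y := integral_const_mul _ _
      _ ≤ u * (9.4 * de θ) := mul_le_mul_of_nonneg_left n5 hu.le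
  have h3 := (abs_le.1 hb).2
  have h4 : u * (1 / θ * (∫ τ in (0 : ℝ)..1, f0 θ ((τ * u) ^ 2)) - 9.4 * de θ) ≤
      u * RR θ (u ^ 2) := by
    rw [r1]
    have : u * (1 / θ * (∫ τ in (0 : ℝ)..1, f0 θ ((τ * u) ^ 2)) - 9.4 * de θ) =
        u / θ * (∫ τ in (0 : ℝ)..1, f0 θ ((τ * u) ^ 2)) - u * (9.4 * de θ) := by ring
    rw [this]
    linarith
  exact le_of_mul_le_mul_left h4 hu

/-- the derivative is at least `0.92` -/
theorem deriv_low (hD : GD) (hM : GM) (hF : GF) (hC : GC) (hN : GN) (hR : GR) {θ : ℝ}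
    (h0 : 0.49 ≤ θ) (h1 : θ < 1 / 2) (hp : ∀ s, 0 ≤ s → s ≤ 6.76 → 0 < f0 θ s) {s : ℝ}
    (hs : 0 < s) (hs2 : s ≤ 5.76) : 0.92 ≤ RR θ s * Real.exp (s / 2) / 2 := by
  have hθ : 0 < θ := by linarith
  set u := √s with hu
  have hu0 : 0 < u := Real.sqrt_pos.2 hs
  have hus : u ^ 2 = s := Real.sq_sqrt hs.le
  have hu24 : u ≤ 2.4 := by
    by_contra hcon
    push Not at hcon
    nlinarith
  have hR1 := RR_low hD hM hF hC hN hR h0 h1 hu0
  rw [hus] at hR1
  have hde : de θ ≤ 0.02 := by unfold de; linarith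
  have hde0 : 0 < de θ := by unfold de; linarith
  have hq : 2 + 2 * de θ ≤ 1 / θ := by
    rw [le_div_iff₀ hθ]
    unfold de
    nlinarith
  have hexp : 1 + s / 2 ≤ Real.exp (s / 2) := by
    have := Real.add_one_le_exp (s / 2)
    linarith
  by_cases hc : u ≤ 1.4
  · have hm := mean_low hθ h1 hp hu0 hu24 (zero_le_one) (le_refl (1 : ℝ))
    rw [hus] at hm
    have hs3 : s ≤ 1.96 := by rw [← hus]; nlinarith
    set M := ∫ τ in (0 : ℝ)..1, f0 θ ((τ * u) ^ 2) with hM'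
    have h5 : (2 + 2 * de θ) * (1 - s / 6) ≤ 1 / θ * M := by
      refine mul_le_mul hq (by linarith) (by linarith) (by positivity)
    have h6 : 1.852 - 0.34 * s ≤ RR θ s := by nlinarith
    have h7 : 0 ≤ 1.852 - 0.34 * s := by linarith
    have h8 : (1.852 - 0.34 * s) * (1 + s / 2) ≤ RR θ s * Real.exp (s / 2) :=
      mul_le_mul h6 hexp (by linarith) (by linarith)
    nlinarith
  · push Not at hc
    have hm := mean_low hθ h1 hp hu0 hu24 (a := 1.4 / u) (by positivity)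
      ((div_le_one hu0).2 hc.le)
    set M := ∫ τ in (0 : ℝ)..1, f0 θ ((τ * u) ^ 2) with hM'
    have h5 : 1.4 / u - (1.4 / u) ^ 3 * u ^ 2 / 6 = (1.4 - 1.4 ^ 3 / 6) / u := by
      field_simp
    rw [h5] at hm
    have h9 : 0.9426 / u ≤ M := by
      refine le_trans ?_ hm
      gcongr
      norm_num
    have h10 : 1.8852 / u - 0.188 ≤ RR θ s := by
      have h11 : 2 * (0.9426 / u) ≤ 1 / θ * M :=
        mul_le_mul (by linarith) h9 (by positivity) (by positivity)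
      have h12 : 2 * (0.9426 / u) = 1.8852 / u := by ring
      rw [h12] at h11
      linarith
    have h13 : 1.84 / (1 + s / 2) ≤ 1.8852 / u - 0.188 := by
      have hs1 : 0 < 1 + s / 2 := by positivity
      rw [div_le_iff₀ hs1, ← hus]
      have h14 : (1.8852 / u - 0.188) * (1 + u ^ 2 / 2) * u =
          (1.8852 - 0.188 * u) * (1 + u ^ 2 / 2) := by
        field_simp
      have h15 : 1.84 * u ≤ (1.8852 / u - 0.188) * (1 + u ^ 2 / 2) * u := by
        rw [h14]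
        have h16 : u ^ 3 ≤ 2.4 * u ^ 2 := by nlinarith [sq_nonneg u]
        nlinarith [sq_nonneg (u - 1.41)]
      exact le_of_mul_le_mul_right h15 hu0
    have hs1 : 0 < 1 + s / 2 := by positivity
    have h17 : 1.84 / (1 + s / 2) * (1 + s / 2) ≤ RR θ s * Real.exp (s / 2) :=
      mul_le_mul (h13.trans h10) hexp hs1.le (le_trans (by positivity) (h13.trans h10))
    rw [div_mul_cancel₀ _ hs1.ne'] at h17
    linarith

theorem gO4 (hF : GF) : Pool.Agent.Helper63.P705.NR.GO4 := by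
  intro hD hM hC hN hR θ h0 h1 hd hp s s' hs' hss hs
  rcases eq_or_lt_of_le hss with h | h
  · rw [h]; simp
  · have hcont : ContinuousOn (fun s => GG θ s * Real.exp (s / 2)) (Icc s' s) :=
      fun x _ => (hd x).continuousAt.continuousWithinAt
    obtain ⟨c, hc, hce⟩ := exists_hasDerivAt_eq_slope (fun s => GG θ s * Real.exp (s / 2))
      (fun s => RR θ s * Real.exp (s / 2) / 2) h hcont (fun x _ => hd x)
    have h2 := deriv_low hD hM hF hC hN hR h0 h1 hp (lt_of_le_of_lt hs' hc.1)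
      (le_trans hc.2.le hs)
    rw [hce, le_div_iff₀ (by linarith)] at h2
    exact h2

end Pool.Agent.Helper5.NR
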